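import Pool.Agent.Helper46.RO.Base

/-!
# The action of a group element on ends
-/

namespace Pool.Agent.Helper7.RO

open Pool.Agent.Helper46.RO

universe u

theorem E2 : GoalE2.{u} := by
  intro L _ X χ hX hχ
  refine ⟨?_, ?_, ?_⟩
  · intro g C hC
    refine ⟨?_, ?_⟩
    · intro s
      obtain ⟨k, hk, hCk⟩ := hC.1 (s - χ g)
      have hk' : s - χ g ≤ χ k := hk
      refine ⟨g * k, ?_, ?_⟩
      · change s ≤ χ (g * k)
        rw [hχ]
        linarith
      · ext h
        change g⁻¹ * h ∈ C (s - χ g) ↔ _
        rw [hCk]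
        constructor
        · rintro ⟨h1, h2⟩
          have h1' : s - χ g ≤ χ (g⁻¹ * h) := h1
          rw [hχ, hχ.inv] at h1'
          refine ⟨?_, ?_⟩
          · change s ≤ χ h
            linarith
          · have h3 := Conn.up_translate hχ g h2
            rw [mul_inv_cancel_left, sub_add_cancel] at h3
            exact h3
        · rintro ⟨h1, h2⟩
          have h1' : s ≤ χ h := h1
          refine ⟨?_, ?_⟩
          · change s - χ g ≤ χ (g⁻¹ * h)
            rw [hχ, hχ.inv]
            linarith
          · have h3 := Conn.up_translate hχ g⁻¹ h2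
            rw [inv_mul_cancel_left, hχ.inv, ← sub_eq_add_neg] at h3
            exact h3
    · intro s s' hs h hh
      exact hC.2 (s - χ g) (s' - χ g) (by linarith) hh
  · intro C
    funext s
    ext h
    change (1 : L)⁻¹ * h ∈ C (s - χ 1) ↔ _
    rw [inv_one, one_mul, hχ.one, sub_zero]
  · intro a b C
    funext s
    ext h
    change (a * b)⁻¹ * h ∈ C (s - χ (a * b)) ↔ b⁻¹ * (a⁻¹ * h) ∈ C (s - χ a - χ b)
    rw [hχ, mul_inv_rev, mul_assoc, sub_add_eq_sub_sub]

end Pool.Agent.Helper7.RO
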